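import Mathlib
import Pool.Agent.H83.Aposyndesis

/-!
# Aposyndesis of Stone-Cech remainders: definitions in the words of the problem, all universes
-/

universe u

namespace Pool.Agent.H67I

open Set Topology

/-- `M` is an `n`-manifold: Hausdorff, second countable and locally homeomorphic to Euclidean
`n`-space (manifold without boundary). -/
def IsNManifold (n : ℕ) (M : Type u) [TopologicalSpace M] : Prop :=
  T2Space M ∧ SecondCountableTopology M ∧
    ∀ x : M, ∃ φ : OpenPartialHomeomorph M (EuclideanSpace ℝ (Fin n)), x ∈ φ.source

/-- `X` has a two-point compactification: a compact Hausdorff space `K` containing `X` as a dense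
subspace, whose points outside `X` are exactly two points `p ≠ q`. -/
def HasTwoPointCompactification (X : Type u) [TopologicalSpace X] : Prop :=
  ∃ (K : Type u) (_ : TopologicalSpace K), CompactSpace K ∧ T2Space K ∧
    ∃ f : X → K, IsEmbedding f ∧ DenseRange f ∧ ∃ p q : K, p ≠ q ∧ (range f)ᶜ = {p, q}

/-- The Stone-Cech remainder of `X`, with the subspace topology of the compactification. -/
abbrev Remainder (X : Type u) [TopologicalSpace X] : Type u :=
  ((range (stoneCechUnit : X → StoneCech X))ᶜ : Set (StoneCech X))

/-- A continuum: a nonempty compact connected Hausdorff space (`ConnectedSpace` includes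
nonempty). -/
def IsContinuum (Y : Type u) [TopologicalSpace Y] : Prop :=
  T2Space Y ∧ CompactSpace Y ∧ ConnectedSpace Y

/-- A subcontinuum of `Y`: a compact connected nonempty subset. -/
def IsSubcontinuum {Y : Type u} [TopologicalSpace Y] (W : Set Y) : Prop :=
  IsCompact W ∧ IsConnected W

/-- `Y` is aposyndetic: for all `x ≠ y` there is a subcontinuum with `x` in its interior and
without `y`. -/
def IsAposyndetic (Y : Type u) [TopologicalSpace Y] : Prop :=
  ∀ x y : Y, x ≠ y → ∃ W : Set Y, IsSubcontinuum W ∧ x ∈ interior W ∧ y ∉ W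

open Pool.Agent.H83 in
/-- If a locally compact normal Hausdorff space admits no two-point compactification, its
remainder is connected (all universes). -/
theorem isPreconnected_remainder {X : Type u} [TopologicalSpace X] [T2Space X] [NormalSpace X]
    [LocallyCompactSpace X] (h : ¬ HasTwoPointCompactification X) :
    IsPreconnected (remainder X) := by
  rw [isPreconnected_closed_iff]
  intro t t' ht ht' hRtt' hRt hRt'
  by_contra hcon
  apply h
  have hdis : Disjoint (remainder X ∩ t) (remainder X ∩ t') := by
    rw [Set.disjoint_left]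
    rintro z ⟨hz1, hz2⟩ ⟨_, hz3⟩
    exact hcon ⟨z, hz1, hz2, hz3⟩
  obtain ⟨G, hG0, hG1, hG⟩ := exists_continuous_zero_one_of_isClosed
    (isClosed_remainder.inter ht) (isClosed_remainder.inter ht') hdis
  let Φ : StoneCech X → OnePoint X × ℝ := fun z => (toOnePoint z, G z)
  have hΦ : Continuous Φ := continuous_toOnePoint.prodMk G.continuous
  have hcompact : IsCompact (range Φ) := isCompact_range hΦ
  let f : X → range Φ := fun x => ⟨Φ (stoneCechUnit x), mem_range_self _⟩
  refine ⟨range Φ, inferInstance, isCompact_iff_compactSpace.mp hcompact, inferInstance, f, ?_, ?_,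
    ?_⟩
  · have hcont : Continuous f :=
      Continuous.subtype_mk (hΦ.comp continuous_stoneCechUnit) _
    have hproj : Continuous (fun y : range Φ => (y : OnePoint X × ℝ).1) :=
      continuous_fst.comp continuous_subtype_val
    refine Topology.IsEmbedding.of_comp hcont hproj ?_
    have : (fun y : range Φ => (y : OnePoint X × ℝ).1) ∘ f = ((↑) : X → OnePoint X) := by
      funext x
      exact toOnePoint_unit x
    rw [this]
    exact OnePoint.isOpenEmbedding_coe.isEmbedding
  · have : f = rangeFactorization Φ ∘ stoneCechUnit := rfl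
    rw [this]
    exact (rangeFactorization_surjective.denseRange).comp denseRange_stoneCechUnit
      (Continuous.subtype_mk hΦ _)
  · obtain ⟨p, hpR, hpt⟩ := hRt
    obtain ⟨q, hqR, hqt⟩ := hRt'
    have hGp : G p = 0 := hG0 ⟨hpR, hpt⟩
    have hGq : G q = 1 := hG1 ⟨hqR, hqt⟩
    refine ⟨⟨Φ p, mem_range_self _⟩, ⟨Φ q, mem_range_self _⟩, ?_, ?_⟩
    · intro heq
      have h1 : Φ p = Φ q := congrArg Subtype.val heq
      have h2 : G p = G q := congrArg Prod.snd h1
      rw [hGp, hGq] at h2
      exact zero_ne_one h2
    · ext ⟨y, hy⟩
      simp only [mem_compl_iff, mem_insert_iff, mem_singleton_iff, Subtype.mk.injEq]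
      obtain ⟨z, rfl⟩ := hy
      constructor
      · intro hz
        have hzR : z ∈ remainder X := by
          rintro ⟨x, rfl⟩
          exact hz ⟨x, rfl⟩
        rcases hRtt' hzR with h1 | h1
        · left
          simp only [Φ, toOnePoint_eq_infty hzR, toOnePoint_eq_infty hpR, hGp, hG0 ⟨hzR, h1⟩]
          rfl
        · right
          simp only [Φ, toOnePoint_eq_infty hzR, toOnePoint_eq_infty hqR, hGq, hG1 ⟨hzR, h1⟩]
          rfl
      · rintro hz ⟨x, hx⟩
        have hx' : Φ (stoneCechUnit x) = Φ z := congrArg Subtype.val hx
        have hx1 : (x : OnePoint X) = toOnePoint z := by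
          rw [← toOnePoint_unit x]
          exact congrArg Prod.fst hx'
        have : toOnePoint z = OnePoint.infty := by
          rcases hz with hz | hz
          · rw [show toOnePoint z = toOnePoint p from congrArg Prod.fst hz,
              toOnePoint_eq_infty hpR]
          · rw [show toOnePoint z = toOnePoint q from congrArg Prod.fst hz,
              toOnePoint_eq_infty hqR]
        rw [this] at hx1
        exact OnePoint.coe_ne_infty x hx1

/-- The extension of an embedding of a locally compact space sends the remainder outside. -/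
lemma mem_range_unit_of_extend {X : Type u} [TopologicalSpace X] [LocallyCompactSpace X]
    {K : Type u} [TopologicalSpace K] [CompactSpace K] [T2Space K] {f : X → K}
    (hf : IsEmbedding f) {z : StoneCech X} {x : X}
    (hz : stoneCechExtend hf.continuous z = f x) :
    z ∈ range (stoneCechUnit : X → StoneCech X) := by
  obtain ⟨C, hC, hxC⟩ := exists_compact_mem_nhds x
  obtain ⟨V, hV, hVC⟩ := hf.isInducing.isOpen_iff.mp (isOpen_interior (s := C))
  have hFc : Continuous (stoneCechExtend hf.continuous) := continuous_stoneCechExtend _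
  have hopen : IsOpen ((stoneCechExtend hf.continuous) ⁻¹' V) := hV.preimage hFc
  have hxV : f x ∈ V := by
    have : x ∈ f ⁻¹' V := by
      rw [hVC]
      exact mem_interior_iff_mem_nhds.mpr hxC
    exact this
  have hzV : z ∈ (stoneCechExtend hf.continuous) ⁻¹' V := by
    show stoneCechExtend hf.continuous z ∈ V
    rw [hz]
    exact hxV
  have hcl : z ∈ closure (stoneCechUnit '' C : Set (StoneCech X)) := by
    rw [mem_closure_iff]
    intro O hO hzO
    obtain ⟨w, ⟨hwO, hwV⟩, ⟨x', rfl⟩⟩ :=
      (denseRange_stoneCechUnit (α := X)).inter_open_nonempty _ (hO.inter hopen) ⟨z, hzO, hzV⟩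
    refine ⟨_, hwO, x', ?_, rfl⟩
    have h1 : stoneCechExtend hf.continuous (stoneCechUnit x') ∈ V := hwV
    rw [stoneCechExtend_stoneCechUnit] at h1
    have h2 : x' ∈ f ⁻¹' V := h1
    rw [hVC] at h2
    exact interior_subset h2
  have hcomp : IsCompact (stoneCechUnit '' C : Set (StoneCech X)) :=
    hC.image continuous_stoneCechUnit
  rw [hcomp.isClosed.closure_eq] at hcl
  obtain ⟨c, -, hc⟩ := hcl
  exact ⟨c, hc⟩

/-- A locally compact space with a two-point compactification has a disconnected remainder. -/
theorem not_hasTwoPointCompactification {X : Type u} [TopologicalSpace X] [LocallyCompactSpace X]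
    (h : PreconnectedSpace (Remainder X)) : ¬ HasTwoPointCompactification X := by
  rintro ⟨K, _, hK1, hK2, f, hf, hd, p, q, hpq, hr⟩
  have hFc : Continuous (stoneCechExtend hf.continuous) := continuous_stoneCechExtend _
  have hsurj : Function.Surjective (stoneCechExtend hf.continuous) := by
    have h1 : range f ⊆ range (stoneCechExtend hf.continuous) := by
      rintro _ ⟨x, rfl⟩
      exact ⟨stoneCechUnit x, stoneCechExtend_stoneCechUnit _ x⟩
    have h2 : IsClosed (range (stoneCechExtend hf.continuous)) :=
      (isCompact_range hFc).isClosed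
    have h3 : Dense (range (stoneCechExtend hf.continuous)) := hd.mono h1
    have h4 : range (stoneCechExtend hf.continuous) = univ := by
      rw [← h2.closure_eq]
      exact h3.closure_eq
    exact range_eq_univ.mp h4
  let F : Remainder X → K := fun z => stoneCechExtend hf.continuous z
  have hF : Continuous F := hFc.comp continuous_subtype_val
  have hmem : ∀ z : Remainder X, F z = p ∨ F z = q := by
    intro z
    have h1 : F z ∈ (range f)ᶜ := by
      rintro ⟨x, hx⟩
      exact z.2 (mem_range_unit_of_extend hf hx.symm)
    rw [hr] at h1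
    exact h1
  have hlift : ∀ k : K, k ∈ (range f)ᶜ → ∃ z : Remainder X, F z = k := by
    intro k hk
    obtain ⟨z, hz⟩ := hsurj k
    refine ⟨⟨z, ?_⟩, hz⟩
    rintro ⟨x, rfl⟩
    rw [stoneCechExtend_stoneCechUnit] at hz
    exact hk ⟨x, hz⟩
  obtain ⟨a, ha⟩ := hlift p (by rw [hr]; exact mem_insert _ _)
  obtain ⟨b, hb⟩ := hlift q (by rw [hr]; exact mem_insert_of_mem _ rfl)
  have hclopen : IsClopen (F ⁻¹' {p}) := by
    refine ⟨isClosed_singleton.preimage hF, ?_⟩
    have h1 : F ⁻¹' {p} = (F ⁻¹' {q})ᶜ := by
      ext z
      constructor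
      · intro hz hz'
        have e1 : F z = p := hz
        have e2 : F z = q := hz'
        exact hpq (e1.symm.trans e2)
      · intro hz
        rcases hmem z with h2 | h2
        · exact h2
        · exact absurd h2 hz
    rw [h1]
    exact (isClosed_singleton.preimage hF).isOpen_compl
  rcases isClopen_iff.mp hclopen with h1 | h1
  · have : a ∈ F ⁻¹' {p} := ha
    rw [h1] at this
    exact this
  · have : b ∈ F ⁻¹' {p} := by
      rw [h1]
      exact mem_univ _
    have e1 : F b = p := this
    exact hpq (e1.symm.trans hb)

/-- The remainder of a compact Hausdorff space is empty. -/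
lemma isEmpty_remainder {X : Type u} [TopologicalSpace X] [CompactSpace X] :
    IsEmpty (Remainder X) := by
  constructor
  rintro ⟨z, hz⟩
  apply hz
  have h1 : IsClosed (range (stoneCechUnit : X → StoneCech X)) :=
    (isCompact_range continuous_stoneCechUnit).isClosed
  have h2 : range (stoneCechUnit : X → StoneCech X) = univ := by
    rw [← h1.closure_eq]
    exact denseRange_stoneCechUnit.closure_eq
  rw [h2]
  exact mem_univ z

/-- **Main theorem**. -/
theorem main (n : ℕ) (M : Type u) [TopologicalSpace M] (hn : 1 < n) (hM : IsNManifold n M) :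
    (NoncompactSpace M ∧ ¬ HasTwoPointCompactification M →
      IsContinuum (Remainder M) ∧ IsAposyndetic (Remainder M)) ∧
    (IsContinuum (Remainder M) → NoncompactSpace M ∧ ¬ HasTwoPointCompactification M) := by
  obtain ⟨h1, h2, h3⟩ := hM
  choose φ hφ using h3
  let cs : ChartedSpace (EuclideanSpace ℝ (Fin n)) M :=
    { atlas := range φ
      chartAt := φ
      mem_chart_source := hφ
      chart_mem_atlas := fun x => mem_range_self x }
  have hlc : LocallyCompactSpace M :=
    ChartedSpace.locallyCompactSpace (EuclideanSpace ℝ (Fin n)) M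
  refine ⟨?_, ?_⟩
  · rintro ⟨hnc, hno⟩
    have hpre := isPreconnected_remainder hno
    have hcpt : IsCompact (H83.remainder M) := H83.isCompact_remainder
    have hne : (H83.remainder M).Nonempty := H83.remainder_nonempty
    refine ⟨⟨inferInstance, isCompact_iff_compactSpace.mp hcpt, ?_⟩, ?_⟩
    · exact isConnected_iff_connectedSpace.mp ⟨hne, hpre⟩
    · intro x y hxy
      have hxy' : (x : StoneCech M) ≠ y := fun h => hxy (Subtype.ext h)
      obtain ⟨K, hKR, hKc, hKn, hyK, U, hU, hxU, hUK⟩ := H83.aposyndetic hn
        (fun z => (φ z).transHomeomorph (EuclideanSpace.equiv (Fin n) ℝ).toHomeomorph)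
        (fun z => by simpa using hφ z) hpre x.2 hxy'
      have himage : Subtype.val '' (Subtype.val ⁻¹' K : Set (Remainder M)) = K := by
        rw [image_preimage_eq_inter_range, Subtype.range_coe]
        exact inter_eq_left.mpr hKR
      refine ⟨Subtype.val ⁻¹' K, ⟨?_, ?_, ?_⟩, ?_, hyK⟩
      · rw [IsInducing.subtypeVal.isCompact_iff, himage]
        exact hKc
      · obtain ⟨k, hk⟩ := hKn.nonempty
        exact ⟨⟨k, hKR hk⟩, hk⟩
      · rw [← IsInducing.subtypeVal.isPreconnected_image, himage]
        exact hKn.isPreconnected
      · rw [mem_interior]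
        refine ⟨Subtype.val ⁻¹' U, ?_, hU.preimage continuous_subtype_val, hxU⟩
        intro z hz
        exact hUK ⟨hz, z.2⟩
  · rintro ⟨-, -, hconn⟩
    refine ⟨?_, not_hasTwoPointCompactification hconn.toPreconnectedSpace⟩
    by_contra hnc
    have hc : CompactSpace M := by
      by_contra h
      exact hnc (not_compactSpace_iff.mp h)
    have := isEmpty_remainder (X := M)
    exact not_isEmpty_iff.mpr hconn.toNonempty this

end Pool.Agent.H67I
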